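import Mathlib
import Pool.Agent.Helper159.CslMain

namespace Pool.Agent.Results.MP_0bc9fa_an.CompactsDenseNotCD

open Pool.Agent.Helper159.Csl

/-- There are a separable complex Hilbert space `H` and a commutative subspace lattice `L` of
closed subspaces of `H` such that the compact operators in `Alg L` are weak* dense in `Alg L`,
but `L` is not completely distributive. -/
theorem result :
    ∃ (H : Type) (_ : NormedAddCommGroup H) (_ : InnerProductSpace ℂ H) (_ : CompleteSpace H)
      (_ : TopologicalSpace.SeparableSpace H) (L : Set (ClosedSubmodule ℂ H)),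
      IsCSL L ∧ CompactsWeakStarDense L ∧ ¬ IsCompletelyDistributive L :=
  ⟨HH, inferInstance, inferInstance, inferInstance, inferInstance, LL, isCSL_LL, dense_LL,
    not_cd_LL⟩

end Pool.Agent.Results.MP_0bc9fa_an.CompactsDenseNotCD
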